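import Pool.Agent.K3h94.AT.Stm

/-!
# LOW: the `p`-part of `(n+1)!` divides `a(n)` (helper79 for helper94, MP_054fa1_nt)
-/

set_option autoImplicit false

open Finset

namespace Pool.Agent.K3h79.AT

open Pool.Agent.K3h94.AT

/-- a square root of `-1` modulo `p ^ M` -/
theorem exists_root (p : ℕ) (hp : p.Prime) (h4 : p % 4 = 1) (M : ℕ) :
    ∃ w : ℤ, ((p ^ M : ℕ) : ℤ) ∣ w * w + 1 := by
  have : Fact p.Prime := ⟨hp⟩
  have hodd : Odd p := Nat.odd_iff.2 (by omega)
  obtain ⟨g, hg⟩ := (ZMod.exists_sq_eq_neg_one_iff (p := p)).2 (by omega)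
  obtain ⟨z, rfl⟩ := ZMod.intCast_surjective g
  have h1 : ((p : ℕ) : ℤ) ∣ z * z - (-1) := by
    rw [← ZMod.intCast_zmod_eq_zero_iff_dvd]
    push_cast
    rw [← hg]
    ring
  have h2 := dvd_sub_pow_of_dvd_sub h1 M
  have h3 : (-1 : ℤ) ^ p ^ M = -1 := (hodd.pow).neg_one_pow
  rw [h3] at h2
  refine ⟨z ^ p ^ M, ?_⟩
  have h4' : ((p ^ M : ℕ) : ℤ) ∣ (p : ℤ) ^ (M + 1) := by
    push_cast
    exact pow_dvd_pow _ (Nat.le_succ M)
  refine h4'.trans ?_
  have : z ^ p ^ M * z ^ p ^ M + 1 = (z * z) ^ p ^ M - (-1) := by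
    rw [mul_pow]; ring
  rw [this]
  exact h2

/-- `m!` divides a product of `m` consecutive integers -/
theorem factorial_dvd (r : ℤ) (m : ℕ) : ((m.factorial : ℕ) : ℤ) ∣ ∏ k ∈ range m, (r + k) := by
  have h := Ring.factorial_nsmul_multichoose_eq_ascPochhammer r m
  rw [Polynomial.ascPochhammer_smeval_eq_eval] at h
  have h2 : (ascPochhammer ℤ m).eval r = ∏ k ∈ range m, (r + k) := by
    clear h
    induction m with
    | zero => simp
    | succ m ih =>
      rw [ascPochhammer_succ_right, Finset.prod_range_succ, Polynomial.eval_mul, ih]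
      simp
  rw [← h2, ← h, nsmul_eq_mul]
  exact dvd_mul_right _ _

/-- the value of `P n` at a square root `w` of `-1` modulo `N ∣ (n+1)!` vanishes. -/
theorem eval_zero (N n : ℕ) (hN : N ∣ (n + 1).factorial) (w : ℤ) (hw : ((w : ℤ) : ZMod N) * w = -1) :
    ((P n).re : ZMod N) + ((P n).im : ZMod N) * (w : ZMod N) = 0 := by
  have hw' : ((w : ℤ) : ZMod N) * w = ((-1 : ℤ) : ZMod N) := by rw [hw]; push_cast; rfl
  set φ : GaussianInt →+* ZMod N := Zsqrtd.lift ⟨(w : ZMod N), hw'⟩ with hφ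
  have hφa : ∀ x : GaussianInt, φ x = (x.re : ZMod N) + (x.im : ZMod N) * (w : ZMod N) := fun x => by
    rw [hφ]; rfl
  rw [← hφa, P, map_prod]
  have h1 : ∀ k ∈ range (n + 1), φ (⟨1, (k : ℤ)⟩ : GaussianInt) = (w : ZMod N) * (((-w + k : ℤ)) : ZMod N) := by
    intro k _
    rw [hφa]
    push_cast
    linear_combination hw
  rw [Finset.prod_congr rfl h1, Finset.prod_mul_distrib]
  have h2 : ((N : ℕ) : ℤ) ∣ ∏ k ∈ range (n + 1), (-w + (k : ℤ)) :=
    (Int.natCast_dvd_natCast.2 hN).trans (factorial_dvd (-w) (n + 1))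
  have h3 : (∏ k ∈ range (n + 1), (((-w + (k : ℤ) : ℤ)) : ZMod N)) = 0 := by
    rw [← Int.cast_prod]
    exact (ZMod.intCast_zmod_eq_zero_iff_dvd _ _).2 h2
  rw [h3, mul_zero]

theorem dvd_a (p n : ℕ) (hp : p.Prime) (h4 : p % 4 = 1) :
    (p : ℤ) ^ padicValNat p (n + 1).factorial ∣ a n := by
  set L := padicValNat p (n + 1).factorial with hL
  have hN : p ^ L ∣ (n + 1).factorial := pow_padicValNat_dvd
  obtain ⟨w, hw⟩ := exists_root p hp h4 L
  have hw0 := (ZMod.intCast_zmod_eq_zero_iff_dvd _ _).2 hw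
  push_cast at hw0
  have hw1 : ((w : ℤ) : ZMod (p ^ L)) * w = -1 := by linear_combination hw0
  have hw2 : (((-w : ℤ) : ℤ) : ZMod (p ^ L)) * ((-w : ℤ) : ZMod (p ^ L)) = -1 := by
    push_cast
    linear_combination hw0
  have e1 := eval_zero (p ^ L) n hN w hw1
  have e2 := eval_zero (p ^ L) n hN (-w) hw2
  push_cast at e2
  have e3 : (2 : ZMod (p ^ L)) * ((P n).im : ZMod (p ^ L)) = 0 := by
    linear_combination (-(w : ZMod (p ^ L))) * (e1 - e2) +
      2 * ((P n).im : ZMod (p ^ L)) * hw1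
  have h2 : IsUnit (2 : ZMod (p ^ L)) := by
    have : IsUnit ((2 : ℕ) : ZMod (p ^ L)) := by
      rw [ZMod.isUnit_iff_coprime]
      exact Nat.Coprime.pow_right _ ((Nat.coprime_primes Nat.prime_two hp).2 (by omega))
    simpa using this
  have e4 : ((P n).im : ZMod (p ^ L)) = 0 := (h2.mul_right_eq_zero).1 e3
  have := (ZMod.intCast_zmod_eq_zero_iff_dvd _ _).1 e4
  push_cast at this
  exact this

theorem val_ge (p n : ℕ) (hp : p.Prime) :
    (n : ℝ) + 1 - ((p : ℝ) - 1) * (Nat.log p (n + 1) + 1) ≤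
      ((p : ℝ) - 1) * (padicValNat p (n + 1).factorial : ℝ) := by
  have : Fact p.Prime := ⟨hp⟩
  have h1 := sub_one_mul_padicValNat_factorial (p := p) (n + 1)
  have h2 : (p.digits (n + 1)).sum ≤ (p.digits (n + 1)).length * (p - 1) := by
    have := List.sum_le_card_nsmul (p.digits (n + 1)) (p - 1) (fun x hx => by
      have := Nat.digits_lt_base hp.one_lt hx
      omega)
    simpa using this
  have h3 : (p.digits (n + 1)).length ≤ Nat.log p (n + 1) + 1 :=
    (Nat.digits_length_le_iff hp.one_lt _).2 (Nat.lt_pow_succ_log_self hp.one_lt _)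
  have h4 : (p.digits (n + 1)).sum ≤ (Nat.log p (n + 1) + 1) * (p - 1) :=
    h2.trans (Nat.mul_le_mul_right _ h3)
  have h5 : n + 1 ≤ (p - 1) * padicValNat p (n + 1).factorial + (Nat.log p (n + 1) + 1) * (p - 1) := by
    omega
  have h6 : ((n + 1 : ℕ) : ℝ) ≤
      (((p - 1) * padicValNat p (n + 1).factorial + (Nat.log p (n + 1) + 1) * (p - 1) : ℕ) : ℝ) := by
    exact_mod_cast h5
  have h7 : ((p - 1 : ℕ) : ℝ) = (p : ℝ) - 1 := by
    rw [Nat.cast_sub hp.one_lt.le]; simp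
  push_cast [h7] at h6
  linarith

theorem t_LOW : S_LOW := fun p n hp h4 => ⟨dvd_a p n hp h4, val_ge p n hp⟩

end Pool.Agent.K3h79.AT

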